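import Pool.Agent.H14.MT.PS

/-!
# First difference of two solutions; multisets are determined by their power sums
-/

set_option autoImplicit false

namespace Pool.Agent.H14.MT

open PowerSeries

/-- `f` and `g` agree below `k` and differ by `d` at `k` -/
def DD (k : ℕ) (f g : ℚ⟦X⟧) (d : ℚ) : Prop :=
  (∀ j < k, coeff j f = coeff j g) ∧ coeff k f - coeff k g = d

theorem DD.mul {k : ℕ} {f g f' g' : ℚ⟦X⟧} {d d' : ℚ} (hk : 0 < k) (h : DD k f g d)
    (h' : DD k f' g' d') :
    DD k (f * f') (g * g') (d * coeff 0 f' + coeff 0 g * d') := by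
  obtain ⟨h1, h2⟩ := h
  obtain ⟨h1', h2'⟩ := h'
  have aux : ∀ (u v : ℚ⟦X⟧) (m : ℕ), (∀ j < m, coeff j u = 0) →
      coeff m (u * v) = coeff m u * coeff 0 v := by
    intro u v m hu
    rw [coeff_mul]
    rw [Finset.sum_eq_single (m, 0)]
    · rintro ⟨i, j⟩ hij hne
      rw [Finset.HasAntidiagonal.mem_antidiagonal] at hij
      have hij' : i + j = m := hij
      have : i < m := by
        rcases Nat.lt_or_ge i m with h | h
        · exact h
        · exfalso
          apply hne
          have hi : i = m := by omega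
          have hj : j = 0 := by omega
          rw [hi, hj]
      simp only
      rw [hu i this, zero_mul]
    · intro hm
      exact absurd (Finset.HasAntidiagonal.mem_antidiagonal.2 (by simp)) hm
  have e1 : f * f' - g * g' = (f - g) * f' + (f' - g') * g := by ring
  have z1 : ∀ m, m ≤ k → ∀ j < m, coeff j (f - g) = 0 := by
    intro m hm j hj
    rw [map_sub, h1 j (by omega), sub_self]
  have z2 : ∀ m, m ≤ k → ∀ j < m, coeff j (f' - g') = 0 := by
    intro m hm j hj
    rw [map_sub, h1' j (by omega), sub_self]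
  have e2 : ∀ m, m ≤ k → coeff m (f * f') - coeff m (g * g') =
      (coeff m f - coeff m g) * coeff 0 f' + (coeff m f' - coeff m g') * coeff 0 g := by
    intro m hm
    rw [← map_sub, e1, map_add, aux _ _ m (z1 m hm), aux _ _ m (z2 m hm), map_sub, map_sub]
  refine ⟨?_, ?_⟩
  · intro j hj
    have := e2 j hj.le
    rw [h1 j hj, h1' j hj] at this
    linarith
  · rw [e2 k le_rfl, h2, h2']
    ring

theorem DD.resc {k : ℕ} {f g : ℚ⟦X⟧} {d : ℚ} (h : DD k f g d) (c : ℚ) :
    DD k (rescale c f) (rescale c g) (c ^ k * d) := by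
  refine ⟨?_, ?_⟩
  · intro j hj
    rw [coeff_rescale, coeff_rescale, h.1 j hj]
  · rw [coeff_rescale, coeff_rescale, ← h.2]
    ring

theorem DD.add {k : ℕ} {f g f' g' : ℚ⟦X⟧} {d d' : ℚ} (h : DD k f g d) (h' : DD k f' g' d') :
    DD k (f + f') (g + g') (d + d') := by
  refine ⟨?_, ?_⟩
  · intro j hj
    rw [map_add, map_add, h.1 j hj, h'.1 j hj]
  · rw [map_add, map_add, ← h.2, ← h'.2]
    ring

theorem DD.sub {k : ℕ} {f g f' g' : ℚ⟦X⟧} {d d' : ℚ} (h : DD k f g d) (h' : DD k f' g' d') :
    DD k (f - f') (g - g') (d - d') := by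
  refine ⟨?_, ?_⟩
  · intro j hj
    rw [map_sub, map_sub, h.1 j hj, h'.1 j hj]
  · rw [map_sub, map_sub, ← h.2, ← h'.2]
    ring

theorem DD.cmul {k : ℕ} {f g : ℚ⟦X⟧} {d : ℚ} (h : DD k f g d) (c : ℚ) :
    DD k (C c * f) (C c * g) (c * d) := by
  refine ⟨?_, ?_⟩
  · intro j hj
    rw [coeff_C_mul, coeff_C_mul, h.1 j hj]
  · rw [coeff_C_mul, coeff_C_mul, ← h.2]
    ring

theorem FF_C (f : ℚ⟦X⟧) : FF f = (f * f) * (f * f) - C (6 : ℚ) * ((f * f) * rescale (2 : ℚ) f) +
    C (3 : ℚ) * (rescale (2 : ℚ) f * rescale (2 : ℚ) f) + C (8 : ℚ) * (f * rescale (3 : ℚ) f)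
    - C (6 : ℚ) * rescale (4 : ℚ) f := by
  unfold FF
  have h6 : (C (6 : ℚ) : ℚ⟦X⟧) = 6 := by exact map_ofNat C _
  have h3 : (C (3 : ℚ) : ℚ⟦X⟧) = 3 := by exact map_ofNat C _
  have h8 : (C (8 : ℚ) : ℚ⟦X⟧) = 8 := by exact map_ofNat C _
  rw [h6, h3, h8]
  ring

/-- the factor of the power sum of order `k` in the `k`-th moment of the 4-sums -/
def fac (n : ℚ) (k : ℕ) : ℚ :=
  4 * n ^ 3 - 12 * n ^ 2 + 8 * n - 6 * 2 ^ k * n ^ 2 + 6 * 2 ^ k * n + 8 * 3 ^ k * n - 6 * 4 ^ k

theorem key {f g : ℚ⟦X⟧} {n : ℚ} {k : ℕ} (hk : 0 < k) (hf : coeff 0 f = n) (hg : coeff 0 g = n)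
    (hag : ∀ j < k, coeff j f = coeff j g) (hF : FF f = FF g) :
    (coeff k f - coeff k g) * fac n k = 0 := by
  have h : DD k f g (coeff k f - coeff k g) := ⟨hag, rfl⟩
  have h2 := h.resc 2
  have h3 := h.resc 3
  have h4 := h.resc 4
  have hff := h.mul hk h
  have c0 : ∀ (c : ℚ) (u : ℚ⟦X⟧), coeff 0 (rescale c u) = coeff 0 u := by
    intro c u
    rw [coeff_rescale, pow_zero, one_mul]
  have cm : ∀ (u v : ℚ⟦X⟧), coeff 0 (u * v) = coeff 0 u * coeff 0 v := by
    intro u v
    rw [coeff_mul]
    simp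
  have ht := ((((hff.mul hk hff).sub ((hff.mul hk h2).cmul 6)).add ((h2.mul hk h2).cmul 3)).add
    ((h.mul hk h3).cmul 8)).sub (h4.cmul 6)
  rw [← FF_C, ← FF_C, hF] at ht
  have h0 := ht.2
  rw [sub_self] at h0
  simp only [c0, cm, hf, hg] at h0
  unfold fac
  linear_combination -h0

theorem all_eq {f g : ℚ⟦X⟧} {n : ℚ} (hf : coeff 0 f = n) (hg : coeff 0 g = n)
    (hn : ∀ k : ℕ, 0 < k → fac n k ≠ 0) (hF : FF f = FF g) : f = g := by
  ext k
  induction k using Nat.strong_induction_on with
  | _ k ih =>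
    rcases Nat.eq_zero_or_pos k with h | h
    · subst h
      rw [hf, hg]
    · have := key h hf hg ih hF
      rcases mul_eq_zero.1 this with h1 | h1
      · linarith
      · exact absurd h1 (hn k h)

/-- a multiset of rationals is determined by its power sums -/
theorem eq_of_ps {A B : Multiset ℚ} (h : ∀ k : ℕ, ps A k = ps B k) : A = B := by
  classical
  have hp : ∀ p : Polynomial ℚ, (A.map (fun a => p.eval a)).sum = (B.map (fun a => p.eval a)).sum := by
    intro p
    induction p using Polynomial.induction_on' with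
    | add p q hp hq =>
      simp only [Polynomial.eval_add, Multiset.sum_map_add]
      rw [hp, hq]
    | monomial n a =>
      simp only [Polynomial.eval_monomial, Multiset.sum_map_mul_left]
      have := h n
      unfold ps at this
      rw [this]
  ext c
  set S : Finset ℚ := (A + B).toFinset.erase c with hS
  set p : Polynomial ℚ := ∏ d ∈ S, (Polynomial.X - Polynomial.C d) with hpdef
  have hc : p.eval c ≠ 0 := by
    rw [hpdef, Polynomial.eval_prod, Finset.prod_ne_zero_iff]
    intro d hd
    rw [hS, Finset.mem_erase] at hd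
    simp only [Polynomial.eval_sub, Polynomial.eval_X, Polynomial.eval_C]
    exact sub_ne_zero.2 (Ne.symm hd.1)
  have hval : ∀ T : Multiset ℚ, T ≤ A + B →
      (T.map (fun a => p.eval a)).sum = (T.count c : ℚ) * p.eval c := by
    intro T hT
    have h1 : (T.map (fun a => p.eval a)) = T.map (fun a => if a = c then p.eval c else 0) := by
      apply Multiset.map_congr rfl
      intro a ha
      split_ifs with hac
      · rw [hac]
      · have haS : a ∈ S := by
          rw [hS, Finset.mem_erase, Multiset.mem_toFinset]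
          exact ⟨hac, Multiset.mem_of_le hT ha⟩
        rw [hpdef, Polynomial.eval_prod]
        apply Finset.prod_eq_zero haS
        simp
    rw [h1]
    clear h1 hT
    induction T using Multiset.induction_on with
    | empty => simp
    | cons a T ih =>
      rw [Multiset.map_cons, Multiset.sum_cons, ih, Multiset.count_cons]
      by_cases hac : a = c
      · subst hac
        simp
        ring
      · have hac' : ¬ c = a := fun h => hac h.symm
        simp [hac, hac']
  have h1 := hval A (Multiset.le_add_right A B)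
  have h2 := hval B (Multiset.le_add_left B A)
  rw [hp p, h2] at h1
  have h3 := mul_right_cancel₀ hc h1
  exact_mod_cast h3.symm

end Pool.Agent.H14.MT
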