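import Mathlib

/-!
# Polynomial relations for twelve numbers with given 4-sums (sum zero)

Generated polynomials: `Gk m2 .. mk` is the `k`-th moment of the 4-sums (times 24) of a multiset of
twelve rationals with power sums `m1 = 0, m2, ...`; `N14` is the Newton polynomial of `e_14`.
-/

set_option autoImplicit false

namespace Pool.Agent.H14.MT

/-- moment polynomial -/
def G7 (m2 m3 m4 m5 m6 m7 : ℚ) : ℚ :=
  10080 * m2 ^ 2 * m3 +
    (-17136) * m2 * m5 +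
    (-8400) * m3 * m4 +
    15552 * m7

/-- moment polynomial -/
def G8 (m2 m3 m4 m5 m6 m7 m8 : ℚ) : ℚ :=
  2520 * m2 ^ 4 +
    13440 * m2 * m3 ^ 2 +
    (-21504) * m2 * m6 +
    (-26880) * m3 * m5 +
    (-6720) * m4 ^ 2 +
    39168 * m8

/-- moment polynomial -/
def G9 (m2 m3 m4 m5 m6 m7 m8 m9 : ℚ) : ℚ :=
  30240 * m2 ^ 3 * m3 +
    (-60480) * m2 * m3 * m4 +
    (-72576) * m2 ^ 2 * m5 +
    115776 * m2 * m7 +
    28224 * m3 * m6 +
    42336 * m4 * m5 +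
    (-83520) * m9

/-- moment polynomial -/
def G10 (m2 m3 m4 m5 m6 m7 m8 m9 m10 : ℚ) : ℚ :=
  151200 * m2 ^ 2 * m3 ^ 2 +
    75600 * m2 ^ 3 * m4 +
    (-604800) * m2 * m3 * m5 +
    (-226800) * m2 * m4 ^ 2 +
    (-362880) * m2 ^ 2 * m6 +
    (-201600) * m3 ^ 2 * m4 +
    1028160 * m2 * m8 +
    702720 * m3 * m7 +
    564480 * m4 * m6 +
    302400 * m5 ^ 2 +
    (-1428480) * m10

/-- moment polynomial -/
def G11 (m2 m3 m4 m5 m6 m7 m8 m9 m10 m11 : ℚ) : ℚ :=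
  369600 * m2 * m3 ^ 3 +
    831600 * m2 ^ 2 * m3 * m4 +
    166320 * m2 ^ 3 * m5 +
    (-2882880) * m2 * m3 * m6 +
    (-2328480) * m2 * m4 * m5 +
    (-1330560) * m2 ^ 2 * m7 +
    (-1108800) * m3 * m4 ^ 2 +
    (-1330560) * m3 ^ 2 * m5 +
    5340720 * m2 * m9 +
    4712400 * m3 * m8 +
    3722400 * m4 * m7 +
    3614688 * m5 * m6 +
    (-9776448) * m11

/-- moment polynomial -/
def G12 (m2 m3 m4 m5 m6 m7 m8 m9 m10 m11 m12 : ℚ) : ℚ :=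
  3326400 * m2 * m3 ^ 2 * m4 +
    1995840 * m2 ^ 2 * m3 * m5 +
    1247400 * m2 ^ 2 * m4 ^ 2 +
    332640 * m2 ^ 3 * m6 +
    369600 * m3 ^ 4 +
    (-11024640) * m2 * m3 * m7 +
    (-9979200) * m2 * m4 * m6 +
    (-4390848) * m2 * m5 ^ 2 +
    (-4276800) * m2 ^ 2 * m8 +
    (-10644480) * m3 * m4 * m5 +
    (-6209280) * m3 ^ 2 * m6 +
    (-1663200) * m4 ^ 3 +
    23139072 * m10 * m2 +
    23971200 * m3 * m9 +
    19863360 * m4 * m8 +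
    17867520 * m5 * m7 +
    8959104 * m6 ^ 2 +
    (-52883712) * m12

/-- moment polynomial -/
def G13 (m2 m3 m4 m5 m6 m7 m8 m9 m10 m11 m12 m13 : ℚ) : ℚ :=
  10810800 * m2 * m3 * m4 ^ 2 +
    8648640 * m2 * m3 ^ 2 * m5 +
    4324320 * m2 ^ 2 * m3 * m6 +
    6486480 * m2 ^ 2 * m4 * m5 +
    617760 * m2 ^ 3 * m7 +
    4804800 * m3 ^ 3 * m4 +
    (-37683360) * m2 * m3 * m8 +
    (-38301120) * m2 * m4 * m7 +
    (-32864832) * m2 * m5 * m6 +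
    (-12767040) * m2 ^ 2 * m9 +
    (-46126080) * m3 * m4 * m6 +
    (-20756736) * m3 * m5 ^ 2 +
    (-24710400) * m3 ^ 2 * m7 +
    (-21621600) * m4 ^ 2 * m5 +
    107174496 * m10 * m3 +
    91454688 * m11 * m2 +
    94963440 * m4 * m9 +
    81976752 * m5 * m8 +
    79649856 * m6 * m7 +
    (-256080960) * m13

/-- moment polynomial -/
def G14 (m2 m3 m4 m5 m6 m7 m8 m9 m10 m11 m12 m13 m14 : ℚ) : ℚ :=
  60540480 * m2 * m3 * m4 * m5 +
    20180160 * m2 * m3 ^ 2 * m6 +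
    12612600 * m2 * m4 ^ 3 +
    8648640 * m2 ^ 2 * m3 * m7 +
    15135120 * m2 ^ 2 * m4 * m6 +
    9081072 * m2 ^ 2 * m5 ^ 2 +
    1081080 * m2 ^ 3 * m8 +
    25225200 * m3 ^ 2 * m4 ^ 2 +
    13453440 * m3 ^ 3 * m5 +
    (-36324288) * m10 * m2 ^ 2 +
    (-120120000) * m2 * m3 * m9 +
    (-136216080) * m2 * m4 * m8 +
    (-121080960) * m2 * m5 * m7 +
    (-54486432) * m2 * m6 ^ 2 +
    (-184504320) * m3 * m4 * m7 +
    (-161441280) * m3 * m5 * m6 +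
    (-89369280) * m3 ^ 2 * m8 +
    (-84756672) * m4 * m5 ^ 2 +
    (-90810720) * m4 ^ 2 * m6 +
    423591168 * m10 * m4 +
    444522624 * m11 * m3 +
    342259008 * m12 * m2 +
    362281920 * m5 * m9 +
    336720384 * m6 * m8 +
    168195456 * m7 ^ 2 +
    (-1164418560) * m14

/-- Newton polynomial -/
def N14 (m2 m3 m4 m5 m6 m7 m8 m9 m10 m11 m12 m13 m14 : ℚ) : ℚ :=
  (-1 / 645120) * m2 ^ 7 +
    (1 / 6912) * m2 ^ 4 * m3 ^ 2 +
    (1 / 15360) * m2 ^ 5 * m4 +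
    (-1 / 3888) * m2 * m3 ^ 4 +
    (-1 / 576) * m2 ^ 2 * m3 ^ 2 * m4 +
    (-1 / 720) * m2 ^ 3 * m3 * m5 +
    (-1 / 1536) * m2 ^ 3 * m4 ^ 2 +
    (-1 / 2304) * m2 ^ 4 * m6 +
    (1 / 120) * m2 * m3 * m4 * m5 +
    (1 / 216) * m2 * m3 ^ 2 * m6 +
    (1 / 768) * m2 * m4 ^ 3 +
    (1 / 168) * m2 ^ 2 * m3 * m7 +
    (1 / 192) * m2 ^ 2 * m4 * m6 +
    (1 / 400) * m2 ^ 2 * m5 ^ 2 +
    (1 / 384) * m2 ^ 3 * m8 +
    (1 / 576) * m3 ^ 2 * m4 ^ 2 +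
    (1 / 810) * m3 ^ 3 * m5 +
    (-1 / 80) * m10 * m2 ^ 2 +
    (-1 / 54) * m2 * m3 * m9 +
    (-1 / 64) * m2 * m4 * m8 +
    (-1 / 70) * m2 * m5 * m7 +
    (-1 / 144) * m2 * m6 ^ 2 +
    (-1 / 84) * m3 * m4 * m7 +
    (-1 / 90) * m3 * m5 * m6 +
    (-1 / 144) * m3 ^ 2 * m8 +
    (-1 / 200) * m4 * m5 ^ 2 +
    (-1 / 192) * m4 ^ 2 * m6 +
    (1 / 40) * m10 * m4 +
    (1 / 33) * m11 * m3 +
    (1 / 24) * m12 * m2 +
    (1 / 45) * m5 * m9 +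
    (1 / 48) * m6 * m8 +
    (1 / 98) * m7 ^ 2 +
    (-1 / 14) * m14

/-- the linear coefficient -/
def alpha (m2 m3 m4 m5 m6 m8 : ℚ) : ℚ :=
  (-111375521 / 67071789916416) * m2 ^ 4 +
    (562115611087 / 19576538909682480) * m2 * m3 ^ 2 +
    (762093077 / 27946579131840) * m2 ^ 2 * m4 +
    (-50945 / 497152143) * m2 * m6 +
    (-3858605791 / 44777078933400) * m3 * m5 +
    (-13379 / 501346880) * m4 ^ 2 +
    (2159 / 12129360) * m8

theorem pair {a2 a3 a4 a5 a6 a7 a8 a9 a10 a11 a12 a13 a14 b6 b7 b8 b9 b10 b11 b12 b13 b14 : ℚ}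
    (h7 : G7 a2 a3 a4 a5 b6 b7 = G7 a2 a3 a4 a5 a6 a7)
    (h8 : G8 a2 a3 a4 a5 b6 b7 b8 = G8 a2 a3 a4 a5 a6 a7 a8)
    (h9 : G9 a2 a3 a4 a5 b6 b7 b8 b9 = G9 a2 a3 a4 a5 a6 a7 a8 a9)
    (h10 : G10 a2 a3 a4 a5 b6 b7 b8 b9 b10 = G10 a2 a3 a4 a5 a6 a7 a8 a9 a10)
    (h11 : G11 a2 a3 a4 a5 b6 b7 b8 b9 b10 b11 = G11 a2 a3 a4 a5 a6 a7 a8 a9 a10 a11)
    (h12 : G12 a2 a3 a4 a5 b6 b7 b8 b9 b10 b11 b12 = G12 a2 a3 a4 a5 a6 a7 a8 a9 a10 a11 a12)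
    (h13 : G13 a2 a3 a4 a5 b6 b7 b8 b9 b10 b11 b12 b13 = G13 a2 a3 a4 a5 a6 a7 a8 a9 a10 a11 a12 a13)
    (h14 : G14 a2 a3 a4 a5 b6 b7 b8 b9 b10 b11 b12 b13 b14 = G14 a2 a3 a4 a5 a6 a7 a8 a9 a10 a11 a12 a13 a14)
    (na : N14 a2 a3 a4 a5 a6 a7 a8 a9 a10 a11 a12 a13 a14 = 0)
    (nb : N14 a2 a3 a4 a5 b6 b7 b8 b9 b10 b11 b12 b13 b14 = 0) :
    b6 = a6 ∨ alpha a2 a3 a4 a5 a6 a8 + (-5247 / 2209565080) * a2 * (b6 - a6) = 0 := by
  obtain ⟨v, rfl⟩ : ∃ v, b6 = a6 + v := ⟨b6 - a6, by ring⟩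
  obtain rfl : b7 = a7 + (0) := by
    unfold G7 at h7
    linear_combination (1 / (15552)) * h7
  obtain rfl : b8 = a8 + ((28 / 51) * a2 * v) := by
    unfold G8 at h8
    linear_combination (1 / (39168)) * h8
  obtain rfl : b9 = a9 + ((49 / 145) * a3 * v) := by
    unfold G9 at h9
    linear_combination (1 / (-83520)) * h9
  obtain rfl : b10 = a10 + ((35 / 248) * a2 ^ 2 * v + (49 / 124) * a4 * v) := by
    unfold G10 at h10
    linear_combination (1 / (-1428480)) * h10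
  obtain rfl : b11 = a11 + ((27629 / 178988) * a2 * a3 * v + (1141 / 3086) * a5 * v) := by
    unfold G11 at h11
    linear_combination (1 / (-9776448)) * h11
  obtain rfl : b12 = a12 + ((163405 / 6912132) * a2 ^ 3 * v + (109681 / 576011) * a2 * a4 * v + (20405 / 570546) * a3 ^ 2 * v + (1111 / 3279) * a6 * v + (1111 / 6558) * v ^ 2) := by
    unfold G12 at h12
    linear_combination (1 / (-52883712)) * h12
  obtain rfl : b13 = a13 + ((16828717436167 / 503234702993520) * a2 ^ 2 * a3 * v + (8371322323 / 46647636540) * a2 * a5 * v + (1060678619 / 9592365960) * a3 * a4 * v + (138281 / 444585) * a7 * v) := by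
    unfold G13 at h13
    linear_combination (1 / (-256080960)) * h13
  obtain rfl : b14 = a14 + ((51239553365 / 16767947479104) * a2 ^ 4 * v + (55442766003716 / 5672747070419355) * a2 * a3 ^ 2 * v + (61138826749 / 1397328956592) * a2 ^ 2 * a4 * v + (1392547156 / 8451586431) * a2 * a6 * v + (6835857028 / 42257932155) * a2 * v ^ 2 + (167881987 / 1559633540) * a3 * a5 * v + (24727703 / 376010160) * a4 ^ 2 * v + (73073 / 252695) * a8 * v) := by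
    unfold G14 at h14
    linear_combination (1 / (-1164418560)) * h14
  have key : v * (alpha a2 a3 a4 a5 a6 a8 + (-5247 / 2209565080) * a2 * v) = 0 := by
    unfold N14 at na nb
    unfold alpha
    linear_combination nb - na
  rcases mul_eq_zero.1 key with h | h
  · left; rw [h, add_zero]
  · right; rw [add_sub_cancel_left]; exact h

end Pool.Agent.H14.MT
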