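import Pool.Agent.H14.MT.Mom
import Pool.Agent.H14.MT.Poly

/-!
# The moment polynomials
-/

set_option autoImplicit false

namespace Pool.Agent.H14.MT

theorem GS7 {m : ℕ → ℚ} (h0 : m 0 = 12) (h1 : m 1 = 0) : GS m 7 = G7 (m 2) (m 3) (m 4) (m 5) (m 6) (m 7) := by
  unfold GS
  rw [cc7 h0 h1]
  unfold cv G7
  simp only [Finset.sum_range_succ, Finset.sum_range_zero, Nat.sub_zero, Nat.reduceSub, Nat.sub_self,
    h0, h1, hh0 h0 h1, hh1 h0 h1, hh2 h0 h1, hh3 h0 h1, hh4 h0 h1, hh5 h0 h1, hh6 h0 h1, hh7 h0 h1]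
  norm_num [Nat.choose]
  ring

theorem GS8 {m : ℕ → ℚ} (h0 : m 0 = 12) (h1 : m 1 = 0) : GS m 8 = G8 (m 2) (m 3) (m 4) (m 5) (m 6) (m 7) (m 8) := by
  unfold GS
  rw [cc8 h0 h1]
  unfold cv G8
  simp only [Finset.sum_range_succ, Finset.sum_range_zero, Nat.sub_zero, Nat.reduceSub, Nat.sub_self,
    h0, h1, hh0 h0 h1, hh1 h0 h1, hh2 h0 h1, hh3 h0 h1, hh4 h0 h1, hh5 h0 h1, hh6 h0 h1, hh7 h0 h1, hh8 h0 h1]
  norm_num [Nat.choose]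
  ring

theorem GS9 {m : ℕ → ℚ} (h0 : m 0 = 12) (h1 : m 1 = 0) : GS m 9 = G9 (m 2) (m 3) (m 4) (m 5) (m 6) (m 7) (m 8) (m 9) := by
  unfold GS
  rw [cc9 h0 h1]
  unfold cv G9
  simp only [Finset.sum_range_succ, Finset.sum_range_zero, Nat.sub_zero, Nat.reduceSub, Nat.sub_self,
    h0, h1, hh0 h0 h1, hh1 h0 h1, hh2 h0 h1, hh3 h0 h1, hh4 h0 h1, hh5 h0 h1, hh6 h0 h1, hh7 h0 h1, hh8 h0 h1, hh9 h0 h1]
  norm_num [Nat.choose]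
  ring

theorem GS10 {m : ℕ → ℚ} (h0 : m 0 = 12) (h1 : m 1 = 0) : GS m 10 = G10 (m 2) (m 3) (m 4) (m 5) (m 6) (m 7) (m 8) (m 9) (m 10) := by
  unfold GS
  rw [cc10 h0 h1]
  unfold cv G10
  simp only [Finset.sum_range_succ, Finset.sum_range_zero, Nat.sub_zero, Nat.reduceSub, Nat.sub_self,
    h0, h1, hh0 h0 h1, hh1 h0 h1, hh2 h0 h1, hh3 h0 h1, hh4 h0 h1, hh5 h0 h1, hh6 h0 h1, hh7 h0 h1, hh8 h0 h1, hh9 h0 h1, hh10 h0 h1]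
  norm_num [Nat.choose]
  ring

end Pool.Agent.H14.MT
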