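import Pool.Agent.H14.MT.Mom
import Pool.Agent.H14.MT.Poly

/-!
# The moment polynomials
-/

set_option autoImplicit false

namespace Pool.Agent.H14.MT

theorem GS11 {m : ℕ → ℚ} (h0 : m 0 = 12) (h1 : m 1 = 0) : GS m 11 = G11 (m 2) (m 3) (m 4) (m 5) (m 6) (m 7) (m 8) (m 9) (m 10) (m 11) := by
  unfold GS
  rw [cc11 h0 h1]
  unfold cv G11
  simp only [Finset.sum_range_succ, Finset.sum_range_zero, Nat.sub_zero, Nat.reduceSub, Nat.sub_self,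
    h0, h1, hh0 h0 h1, hh1 h0 h1, hh2 h0 h1, hh3 h0 h1, hh4 h0 h1, hh5 h0 h1, hh6 h0 h1, hh7 h0 h1, hh8 h0 h1, hh9 h0 h1, hh10 h0 h1, hh11 h0 h1]
  norm_num [Nat.choose]
  ring

theorem GS12 {m : ℕ → ℚ} (h0 : m 0 = 12) (h1 : m 1 = 0) : GS m 12 = G12 (m 2) (m 3) (m 4) (m 5) (m 6) (m 7) (m 8) (m 9) (m 10) (m 11) (m 12) := by
  unfold GS
  rw [cc12 h0 h1]
  unfold cv G12
  simp only [Finset.sum_range_succ, Finset.sum_range_zero, Nat.sub_zero, Nat.reduceSub, Nat.sub_self,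
    h0, h1, hh0 h0 h1, hh1 h0 h1, hh2 h0 h1, hh3 h0 h1, hh4 h0 h1, hh5 h0 h1, hh6 h0 h1, hh7 h0 h1, hh8 h0 h1, hh9 h0 h1, hh10 h0 h1, hh11 h0 h1, hh12 h0 h1]
  norm_num [Nat.choose]
  ring

end Pool.Agent.H14.MT
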