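import Pool.Agent.H14.MT.PS
import Pool.Agent.H14.MT.Poly

/-!
# The Newton relation of order 14 for twelve numbers with sum zero
-/

set_option autoImplicit false

namespace Pool.Agent.H14.MT

theorem newton {n : ℕ} (a : Fin n → ℚ) (k : ℕ) :
    (k : ℚ) * (∑ t ∈ Finset.powersetCard k Finset.univ, ∏ i ∈ t, a i) = (-1) ^ (k + 1) *
      ∑ j ∈ Finset.range k, (-1) ^ j *
        (∑ t ∈ Finset.powersetCard j Finset.univ, ∏ i ∈ t, a i) * ∑ i, a i ^ (k - j) := by
  have h := congrArg (MvPolynomial.aeval a) (MvPolynomial.mul_esymm_eq_sum (Fin n) ℚ k)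
  have he : ∀ j : ℕ, MvPolynomial.aeval a (MvPolynomial.esymm (Fin n) ℚ j) =
      ∑ t ∈ Finset.powersetCard j Finset.univ, ∏ i ∈ t, a i := by
    intro j
    unfold MvPolynomial.esymm
    simp [map_sum, map_prod]
  have hp : ∀ j : ℕ, MvPolynomial.aeval a (MvPolynomial.psum (Fin n) ℚ j) = ∑ i, a i ^ j := by
    intro j
    unfold MvPolynomial.psum
    simp [map_sum]
  rw [map_mul, map_natCast, he, map_mul, map_pow, map_neg, map_one, map_sum] at h
  rw [h]
  congr 1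
  rw [Finset.sum_filter, Finset.Nat.sum_antidiagonal_eq_sum_range_succ_mk, Finset.sum_range_succ]
  simp only [lt_irrefl, if_false, add_zero]
  apply Finset.sum_congr rfl
  intro j hj
  rw [Finset.mem_range] at hj
  rw [if_pos hj, map_mul, map_mul, map_pow, map_neg, map_one, he, hp]

theorem newton14 (e p : ℕ → ℚ) (h0 : e 0 = 1) (h1 : p 1 = 0) (h13 : e 13 = 0) (h14 : e 14 = 0)
    (H : ∀ k : ℕ, (k : ℚ) * e k = (-1) ^ (k + 1) * ∑ j ∈ Finset.range k, (-1) ^ j * e j * p (k - j)) :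
    N14 (p 2) (p 3) (p 4) (p 5) (p 6) (p 7) (p 8) (p 9) (p 10) (p 11) (p 12) (p 13) (p 14) = 0 := by
  have e1 : e 1 = 0 := by
    have h := H 1
    norm_num [Finset.sum_range_succ, h0, h1] at h
    linarith
  have e2 : e 2 = (-1 / 2) * (p 2) := by
    have h := H 2
    norm_num [Finset.sum_range_succ, h0, h1, h13, e1] at h
    linarith
  have e3 : e 3 = (1 / 3) * (p 3) := by
    have h := H 3
    norm_num [Finset.sum_range_succ, h0, h1, h13, e1, e2] at h
    linarith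
  have e4 : e 4 = (1 / 8) * (p 2) ^ 2 +
      (-1 / 4) * (p 4) := by
    have h := H 4
    norm_num [Finset.sum_range_succ, h0, h1, h13, e1, e2, e3] at h
    linarith
  have e5 : e 5 = (-1 / 6) * (p 2) * (p 3) +
      (1 / 5) * (p 5) := by
    have h := H 5
    norm_num [Finset.sum_range_succ, h0, h1, h13, e1, e2, e3, e4] at h
    linarith
  have e6 : e 6 = (-1 / 48) * (p 2) ^ 3 +
      (1 / 8) * (p 2) * (p 4) +
      (1 / 18) * (p 3) ^ 2 +
      (-1 / 6) * (p 6) := by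
    have h := H 6
    norm_num [Finset.sum_range_succ, h0, h1, h13, e1, e2, e3, e4, e5] at h
    linarith
  have e7 : e 7 = (1 / 24) * (p 2) ^ 2 * (p 3) +
      (-1 / 10) * (p 2) * (p 5) +
      (-1 / 12) * (p 3) * (p 4) +
      (1 / 7) * (p 7) := by
    have h := H 7
    norm_num [Finset.sum_range_succ, h0, h1, h13, e1, e2, e3, e4, e5, e6] at h
    linarith
  have e8 : e 8 = (1 / 384) * (p 2) ^ 4 +
      (-1 / 36) * (p 2) * (p 3) ^ 2 +
      (-1 / 32) * (p 2) ^ 2 * (p 4) +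
      (1 / 12) * (p 2) * (p 6) +
      (1 / 15) * (p 3) * (p 5) +
      (1 / 32) * (p 4) ^ 2 +
      (-1 / 8) * (p 8) := by
    have h := H 8
    norm_num [Finset.sum_range_succ, h0, h1, h13, e1, e2, e3, e4, e5, e6, e7] at h
    linarith
  have e9 : e 9 = (-1 / 144) * (p 2) ^ 3 * (p 3) +
      (1 / 24) * (p 2) * (p 3) * (p 4) +
      (1 / 40) * (p 2) ^ 2 * (p 5) +
      (1 / 162) * (p 3) ^ 3 +
      (-1 / 14) * (p 2) * (p 7) +
      (-1 / 18) * (p 3) * (p 6) +
      (-1 / 20) * (p 4) * (p 5) +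
      (1 / 9) * (p 9) := by
    have h := H 9
    norm_num [Finset.sum_range_succ, h0, h1, h13, e1, e2, e3, e4, e5, e6, e7, e8] at h
    linarith
  have e10 : e 10 = (-1 / 3840) * (p 2) ^ 5 +
      (1 / 144) * (p 2) ^ 2 * (p 3) ^ 2 +
      (1 / 192) * (p 2) ^ 3 * (p 4) +
      (-1 / 30) * (p 2) * (p 3) * (p 5) +
      (-1 / 64) * (p 2) * (p 4) ^ 2 +
      (-1 / 48) * (p 2) ^ 2 * (p 6) +
      (-1 / 72) * (p 3) ^ 2 * (p 4) +
      (1 / 16) * (p 2) * (p 8) +
      (1 / 21) * (p 3) * (p 7) +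
      (1 / 24) * (p 4) * (p 6) +
      (1 / 50) * (p 5) ^ 2 +
      (-1 / 10) * (p 10) := by
    have h := H 10
    norm_num [Finset.sum_range_succ, h0, h1, h13, e1, e2, e3, e4, e5, e6, e7, e8, e9] at h
    linarith
  have e11 : e 11 = (1 / 1152) * (p 2) ^ 4 * (p 3) +
      (-1 / 324) * (p 2) * (p 3) ^ 3 +
      (-1 / 96) * (p 2) ^ 2 * (p 3) * (p 4) +
      (-1 / 240) * (p 2) ^ 3 * (p 5) +
      (1 / 36) * (p 2) * (p 3) * (p 6) +
      (1 / 40) * (p 2) * (p 4) * (p 5) +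
      (1 / 56) * (p 2) ^ 2 * (p 7) +
      (1 / 96) * (p 3) * (p 4) ^ 2 +
      (1 / 90) * (p 3) ^ 2 * (p 5) +
      (-1 / 18) * (p 2) * (p 9) +
      (-1 / 24) * (p 3) * (p 8) +
      (-1 / 28) * (p 4) * (p 7) +
      (-1 / 30) * (p 5) * (p 6) +
      (1 / 11) * (p 11) := by
    have h := H 11
    norm_num [Finset.sum_range_succ, h0, h1, h13, e1, e2, e3, e4, e5, e6, e7, e8, e9, e10] at h
    linarith
  have e12 : e 12 = (1 / 46080) * (p 2) ^ 6 +
      (-1 / 864) * (p 2) ^ 3 * (p 3) ^ 2 +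
      (-1 / 1536) * (p 2) ^ 4 * (p 4) +
      (1 / 144) * (p 2) * (p 3) ^ 2 * (p 4) +
      (1 / 120) * (p 2) ^ 2 * (p 3) * (p 5) +
      (1 / 256) * (p 2) ^ 2 * (p 4) ^ 2 +
      (1 / 288) * (p 2) ^ 3 * (p 6) +
      (1 / 1944) * (p 3) ^ 4 +
      (-1 / 42) * (p 2) * (p 3) * (p 7) +
      (-1 / 48) * (p 2) * (p 4) * (p 6) +
      (-1 / 100) * (p 2) * (p 5) ^ 2 +
      (-1 / 64) * (p 2) ^ 2 * (p 8) +
      (-1 / 60) * (p 3) * (p 4) * (p 5) +
      (-1 / 108) * (p 3) ^ 2 * (p 6) +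
      (-1 / 384) * (p 4) ^ 3 +
      (1 / 20) * (p 10) * (p 2) +
      (1 / 27) * (p 3) * (p 9) +
      (1 / 32) * (p 4) * (p 8) +
      (1 / 35) * (p 5) * (p 7) +
      (1 / 72) * (p 6) ^ 2 +
      (-1 / 12) * (p 12) := by
    have h := H 12
    norm_num [Finset.sum_range_succ, h0, h1, h13, e1, e2, e3, e4, e5, e6, e7, e8, e9, e10, e11] at h
    linarith
  have h := H 14
  norm_num [Finset.sum_range_succ, h0, h1, h13, h14, e1, e2, e3, e4, e5, e6, e7, e8, e9, e10, e11, e12] at h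
  unfold N14
  linarith

theorem newton_ms (A : Multiset ℚ) (hA : Multiset.card A = 12) (h1 : ps A 1 = 0) :
    N14 (ps A 2) (ps A 3) (ps A 4) (ps A 5) (ps A 6) (ps A 7) (ps A 8) (ps A 9) (ps A 10) (ps A 11) (ps A 12) (ps A 13) (ps A 14) = 0 := by
  obtain ⟨l, rfl⟩ : ∃ l : List ℚ, A = (l : Multiset ℚ) := ⟨A.toList, (Multiset.coe_toList A).symm⟩
  rw [Multiset.coe_card] at hA
  have hp : ∀ k : ℕ, ps (l : Multiset ℚ) k = ∑ i : Fin 12, (fun i : Fin 12 => l.get (i.cast hA.symm)) i ^ k := by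
    intro k
    unfold ps
    rw [Multiset.map_coe, Multiset.sum_coe]
    have : List.map (fun a => a ^ k) l = List.ofFn (fun i : Fin 12 => (l.get (i.cast hA.symm)) ^ k) := by
      apply List.ext_get
      · simp [hA]
      · intro n h1 h2
        rw [List.get_eq_getElem, List.get_eq_getElem, List.getElem_map, List.getElem_ofFn]
        rfl
    rw [this, List.sum_ofFn]
  set a : Fin 12 → ℚ := fun i => l.get (i.cast hA.symm) with ha
  have h := newton14 (fun k => ∑ t ∈ Finset.powersetCard k Finset.univ, ∏ i ∈ t, a i)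
    (fun k => ps (l : Multiset ℚ) k) (by simp) h1
    (by simp [Finset.powersetCard_eq_empty.2]) (by simp [Finset.powersetCard_eq_empty.2])
    (by
      intro k
      have := newton a k
      simp only [hp]
      exact this)
  exact h

end Pool.Agent.H14.MT
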