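import Pool.Agent.H14.MT.NT
import Pool.Agent.H14.MT.Newton
import Pool.Agent.H14.MT.MomA
import Pool.Agent.H14.MT.MomB
import Pool.Agent.H14.MT.MomC
import Pool.Agent.H14.MT.MomD

/-!
# No three pairwise 4-equivalent multisets
-/

set_option autoImplicit false

namespace Pool.Agent.H14.MT

open PowerSeries

theorem ps_zero (A : Multiset ℚ) : ps A 0 = (Multiset.card A : ℚ) := by
  unfold ps
  simp

theorem coeff_zero_EE (A : Multiset ℚ) : coeff 0 (EE A) = (Multiset.card A : ℚ) := by
  rw [coeff_EE, ps_zero]
  simp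

theorem ps_eq_of_coeff {A B : Multiset ℚ} {k : ℕ} (h : coeff k (EE A) = coeff k (EE B)) :
    ps A k = ps B k := by
  rw [← mu_EE, ← mu_EE]
  unfold mu
  rw [h]

theorem coeff_of_ps_eq {A B : Multiset ℚ} {k : ℕ} (h : ps A k = ps B k) :
    coeff k (EE A) = coeff k (EE B) := by
  rw [coeff_EE, coeff_EE, h]

/-- two multisets of `n > 8` rationals, `n ≠ 12`, with the same 4-sums are equal -/
theorem unique {n : ℕ} (hn : 8 < n) (hn12 : n ≠ 12) {A B : Multiset ℚ} (hA : Multiset.card A = n)
    (hB : Multiset.card B = n) (h : sums 4 A = sums 4 B) : A = B := by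
  have h1 : EE A = EE B := all_eq (n := (n : ℚ)) (by rw [coeff_zero_EE, hA])
    (by rw [coeff_zero_EE, hB]) (fun k hk => fac_ne hn hn12 hk) (FF_eq h)
  exact eq_of_ps fun k => ps_eq_of_coeff (by rw [h1])

/-- twelve rationals: the power sums of order at most five agree -/
theorem low {A B : Multiset ℚ} (hA : Multiset.card A = 12)
    (hB : Multiset.card B = 12) (h : sums 4 A = sums 4 B) :
    ∀ k : ℕ, k < 6 → coeff k (EE A) = coeff k (EE B) := by
  intro k
  induction k using Nat.strong_induction_on with
  | _ k ih =>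
    intro hk6
    rcases Nat.eq_zero_or_pos k with h0 | h0
    · subst h0
      rw [coeff_zero_EE, coeff_zero_EE, hA, hB]
    · have := key (n := 12) h0 (by rw [coeff_zero_EE, hA]; norm_num)
        (by rw [coeff_zero_EE, hB]; norm_num) (fun j hj => ih j hj (by omega)) (FF_eq h)
      rcases mul_eq_zero.1 this with h1 | h1
      · linarith
      · exact absurd h1 (fac12_ne h0 (by omega))

/-- if moreover the sixth power sums agree, the multisets are equal -/
theorem eq_of_six {A B : Multiset ℚ} (hA : Multiset.card A = 12)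
    (hB : Multiset.card B = 12) (h : sums 4 A = sums 4 B) (h6 : ps A 6 = ps B 6) : A = B := by
  have h1 : ∀ k : ℕ, coeff k (EE A) = coeff k (EE B) := by
    intro k
    induction k using Nat.strong_induction_on with
    | _ k ih =>
      rcases Nat.eq_zero_or_pos k with h0 | h0
      · subst h0
        rw [coeff_zero_EE, coeff_zero_EE, hA, hB]
      · by_cases hk6 : k = 6
        · subst hk6
          exact coeff_of_ps_eq h6
        · have := key (n := 12) h0 (by rw [coeff_zero_EE, hA]; norm_num)
            (by rw [coeff_zero_EE, hB]; norm_num) ih (FF_eq h)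
          rcases mul_eq_zero.1 this with h1 | h1
          · linarith
          · exact absurd h1 (fac12_ne h0 hk6)
  exact eq_of_ps fun k => ps_eq_of_coeff (h1 k)

theorem GS_eq {A B : Multiset ℚ} (h : sums 4 A = sums 4 B) (k : ℕ) : GS (ps A) k = GS (ps B) k := by
  have h1 : mu (FF (EE A)) k = mu (FF (EE B)) k := by rw [FF_eq h]
  rw [mu_FF, mu_FF] at h1
  have e1 : mu (EE A) = ps A := funext (mu_EE A)
  have e2 : mu (EE B) = ps B := funext (mu_EE B)
  rw [e1, e2] at h1
  exact h1

/-- the dichotomy for a pair -/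
theorem pair_ms {A B : Multiset ℚ} (hA : Multiset.card A = 12) (hB : Multiset.card B = 12)
    (hA1 : ps A 1 = 0) (h : sums 4 A = sums 4 B) :
    ps B 6 = ps A 6 ∨ alpha (ps A 2) (ps A 3) (ps A 4) (ps A 5) (ps A 6) (ps A 8) +
      (-5247 / 2209565080) * (ps A 2) * (ps B 6 - ps A 6) = 0 := by
  have hl := low hA hB h
  have e : ∀ k < 6, ps A k = ps B k := fun k hk => ps_eq_of_coeff (hl k hk)
  have hB1 : ps B 1 = 0 := by rw [← e 1 (by norm_num)]; exact hA1
  have a0 : ps A 0 = 12 := by rw [ps_zero, hA]; norm_num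
  have b0 : ps B 0 = 12 := by rw [ps_zero, hB]; norm_num
  have e2 := e 2 (by norm_num)
  have e3 := e 3 (by norm_num)
  have e4 := e 4 (by norm_num)
  have e5 := e 5 (by norm_num)
  have na := newton_ms A hA hA1
  have nb := newton_ms B hB hB1
  have g7 := GS_eq h 7
  have g8 := GS_eq h 8
  have g9 := GS_eq h 9
  have g10 := GS_eq h 10
  have g11 := GS_eq h 11
  have g12 := GS_eq h 12
  have g13 := GS_eq h 13
  have g14 := GS_eq h 14
  rw [GS7 a0 hA1, GS7 b0 hB1] at g7
  rw [GS8 a0 hA1, GS8 b0 hB1] at g8
  rw [GS9 a0 hA1, GS9 b0 hB1] at g9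
  rw [GS10 a0 hA1, GS10 b0 hB1] at g10
  rw [GS11 a0 hA1, GS11 b0 hB1] at g11
  rw [GS12 a0 hA1, GS12 b0 hB1] at g12
  rw [GS13 a0 hA1, GS13 b0 hB1] at g13
  rw [GS14 a0 hA1, GS14 b0 hB1] at g14
  rw [← e2, ← e3, ← e4, ← e5] at g7 g8 g9 g10 g11 g12 g13 g14 nb
  exact pair g7.symm g8.symm g9.symm g10.symm g11.symm g12.symm g13.symm g14.symm na nb

theorem zero_of_sq {A : Multiset ℚ} (h : ps A 2 = 0) : A = Multiset.replicate (Multiset.card A) 0 := by
  rw [Multiset.eq_replicate]
  refine ⟨rfl, ?_⟩
  intro b hb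
  have h1 : ∀ x ∈ A.map (fun a => a ^ 2), (0 : ℚ) ≤ x := by
    intro x hx
    rw [Multiset.mem_map] at hx
    obtain ⟨a, _, rfl⟩ := hx
    positivity
  have h2 : b ^ 2 ≤ (A.map (fun a => a ^ 2)).sum :=
    Multiset.single_le_sum h1 _ (Multiset.mem_map_of_mem _ hb)
  unfold ps at h
  rw [h] at h2
  exact pow_eq_zero_iff (two_ne_zero) |>.1 (le_antisymm h2 (by positivity))

theorem no_triple12 {A B D : Multiset ℚ} (hA : Multiset.card A = 12) (hB : Multiset.card B = 12)
    (hD : Multiset.card D = 12) (hA1 : ps A 1 = 0) (h : sums 4 A = sums 4 B)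
    (h' : sums 4 A = sums 4 D) : A = B ∨ B = D ∨ A = D := by
  rcases pair_ms hA hB hA1 h with h1 | h1
  · left
    exact eq_of_six hA hB h h1.symm
  rcases pair_ms hA hD hA1 h' with h2 | h2
  · right; right
    exact eq_of_six hA hD h' h2.symm
  have h3 : ps A 2 * (ps B 6 - ps D 6) = 0 := by linarith
  rcases mul_eq_zero.1 h3 with h4 | h4
  · left
    have e2 : ps A 2 = ps B 2 := ps_eq_of_coeff (low hA hB h 2 (by norm_num))
    rw [zero_of_sq h4, zero_of_sq (e2 ▸ h4 : ps B 2 = 0), hA, hB]
  · right; left
    exact eq_of_six hB hD (h.symm.trans h') (by linarith)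

/-- translation -/
theorem sums_shift (A : Multiset ℚ) (s : ℕ) (c : ℚ) :
    sums s (A.map fun a => a - c) = (sums s A).map fun x => x - s * c := by
  unfold sums
  rw [Multiset.powersetCard_map, Multiset.map_map, Multiset.map_map]
  apply Multiset.map_congr rfl
  intro t ht
  rw [Multiset.mem_powersetCard] at ht
  simp only [Function.comp]
  have : ∀ t : Multiset ℚ, (t.map fun a => a - c).sum = t.sum - (Multiset.card t : ℚ) * c := by
    intro t
    induction t using Multiset.induction_on with
    | empty => simp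
    | cons a t ih =>
      rw [Multiset.map_cons, Multiset.sum_cons, ih, Multiset.sum_cons, Multiset.card_cons]
      push_cast
      ring
  rw [this, ht.2]

theorem ps_one_shift (A : Multiset ℚ) (c : ℚ) :
    ps (A.map fun a => a - c) 1 = ps A 1 - (Multiset.card A : ℚ) * c := by
  unfold ps
  rw [Multiset.map_map]
  induction A using Multiset.induction_on with
  | empty => simp
  | cons a t ih =>
    rw [Multiset.map_cons, Multiset.sum_cons, ih, Multiset.map_cons, Multiset.sum_cons,
      Multiset.card_cons]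
    simp only [Function.comp]
    push_cast
    ring

theorem no_tripleQ {n : ℕ} (hn : 8 < n) {A B D : Multiset ℚ} (hA : Multiset.card A = n)
    (hB : Multiset.card B = n) (hD : Multiset.card D = n) (h : sums 4 A = sums 4 B)
    (h' : sums 4 A = sums 4 D) : A = B ∨ B = D ∨ A = D := by
  by_cases hn12 : n = 12
  · subst hn12
    set c : ℚ := ps A 1 / 12 with hc
    have hinj : Function.Injective (fun a : ℚ => a - c) := fun x y hxy => by
      simpa using hxy
    have hcard : ∀ T : Multiset ℚ, Multiset.card T = 12 →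
        Multiset.card (T.map fun a => a - c) = 12 := by
      intro T hT
      rw [Multiset.card_map, hT]
    have h1 : ps (A.map fun a => a - c) 1 = 0 := by
      rw [ps_one_shift, hA, hc]
      push_cast
      ring
    have h2 : sums 4 (A.map fun a => a - c) = sums 4 (B.map fun a => a - c) := by
      rw [sums_shift, sums_shift, h]
    have h3 : sums 4 (A.map fun a => a - c) = sums 4 (D.map fun a => a - c) := by
      rw [sums_shift, sums_shift, h']
    rcases no_triple12 (hcard A hA) (hcard B hB) (hcard D hD) h1 h2 h3 with h4 | h4 | h4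
    · left; exact Multiset.map_injective hinj h4
    · right; left; exact Multiset.map_injective hinj h4
    · right; right; exact Multiset.map_injective hinj h4
  · left
    exact unique hn hn12 hA hB h

end Pool.Agent.H14.MT
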