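import Pool.Agent.H14.MT.NT
import Pool.Agent.H14.MT.Poly

/-!
# Moments of the 4-sums and the Newton relation of order 14
-/

set_option autoImplicit false

namespace Pool.Agent.H14.MT

open PowerSeries

/-- binomial convolution -/
def cv (a b : ℕ → ℚ) (k : ℕ) : ℚ := ∑ j ∈ Finset.range (k + 1), (k.choose j : ℚ) * a j * b (k - j)

/-- moment of a series -/
noncomputable def mu (f : ℚ⟦X⟧) (k : ℕ) : ℚ := (k.factorial : ℚ) * coeff k f

theorem mu_mul (f g : ℚ⟦X⟧) (k : ℕ) : mu (f * g) k = cv (mu f) (mu g) k := by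
  unfold mu cv
  rw [coeff_mul, Finset.Nat.sum_antidiagonal_eq_sum_range_succ
    (fun i j => coeff i f * coeff j g) k, Finset.mul_sum]
  apply Finset.sum_congr rfl
  intro j hj
  rw [Finset.mem_range] at hj
  have h := Nat.choose_mul_factorial_mul_factorial (show j ≤ k by omega)
  have h' : (k.choose j : ℚ) * (j.factorial : ℚ) * ((k - j).factorial : ℚ) = (k.factorial : ℚ) := by
    exact_mod_cast h
  rw [← h']
  ring

theorem mu_resc (c : ℚ) (f : ℚ⟦X⟧) (k : ℕ) : mu (rescale c f) k = c ^ k * mu f k := by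
  unfold mu
  rw [coeff_rescale]
  ring

/-- moments of `H = f^2 - 3 f(2x)` -/
def hh (m : ℕ → ℚ) (k : ℕ) : ℚ := cv m m k - 3 * 2 ^ k * m k

/-- moments of `FF f` -/
def GS (m : ℕ → ℚ) (k : ℕ) : ℚ :=
  cv (hh m) (hh m) k - 6 * 2 ^ k * cv m m k + 8 * cv m (fun j => 3 ^ j * m j) k - 6 * 4 ^ k * m k

theorem mu_FF (f : ℚ⟦X⟧) (k : ℕ) : mu (FF f) k = GS (mu f) k := by
  have e : FF f = (f * f - C (3 : ℚ) * rescale (2 : ℚ) f) * (f * f - C (3 : ℚ) * rescale (2 : ℚ) f)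
      - C (6 : ℚ) * rescale (2 : ℚ) (f * f) + C (8 : ℚ) * (f * rescale (3 : ℚ) f)
      - C (6 : ℚ) * rescale (4 : ℚ) f := by
    unfold FF
    have h6 : (C (6 : ℚ) : ℚ⟦X⟧) = 6 := by exact map_ofNat C _
    have h3 : (C (3 : ℚ) : ℚ⟦X⟧) = 3 := by exact map_ofNat C _
    have h8 : (C (8 : ℚ) : ℚ⟦X⟧) = 8 := by exact map_ofNat C _
    rw [h6, h3, h8, map_mul]
    ring
  have hsub : ∀ (u v : ℚ⟦X⟧) (k : ℕ), mu (u - v) k = mu u k - mu v k := by
    intro u v k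
    unfold mu
    rw [map_sub]; ring
  have hadd : ∀ (u v : ℚ⟦X⟧) (k : ℕ), mu (u + v) k = mu u k + mu v k := by
    intro u v k
    unfold mu
    rw [map_add]; ring
  have hC : ∀ (c : ℚ) (v : ℚ⟦X⟧) (k : ℕ), mu (C c * v) k = c * mu v k := by
    intro c v k
    unfold mu
    rw [coeff_C_mul]; ring
  have hH : mu (f * f - C (3 : ℚ) * rescale (2 : ℚ) f) = hh (mu f) := by
    funext j
    rw [hsub, hC, mu_mul, mu_resc]
    unfold hh
    ring
  have h3 : mu (rescale (3 : ℚ) f) = fun j => 3 ^ j * mu f j := by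
    funext j
    rw [mu_resc]
  rw [e, hsub, hadd, hsub, mu_mul, hH, hC, mu_resc, mu_mul, hC, mu_mul, h3, hC, mu_resc]
  unfold GS
  ring

theorem mu_EE (A : Multiset ℚ) (k : ℕ) : mu (EE A) k = ps A k := by
  unfold mu
  rw [coeff_EE]
  have : (k.factorial : ℚ) ≠ 0 := by exact_mod_cast (Nat.factorial_pos k).ne'
  field_simp

theorem hh0 {m : ℕ → ℚ} (h0 : m 0 = 12) (h1 : m 1 = 0) : hh m 0 = 108 := by
  unfold hh cv
  simp only [Finset.sum_range_succ, Finset.sum_range_zero, h0, h1, Nat.choose]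
  norm_num [h0, h1]

theorem cc0 {m : ℕ → ℚ} (h0 : m 0 = 12) (h1 : m 1 = 0) : cv m m 0 = 144 := by
  unfold cv
  simp only [Finset.sum_range_succ, Finset.sum_range_zero, h0, h1, Nat.choose]
  norm_num [h0, h1]

theorem hh1 {m : ℕ → ℚ} (h0 : m 0 = 12) (h1 : m 1 = 0) : hh m 1 = 0 := by
  unfold hh cv
  simp only [Finset.sum_range_succ, Finset.sum_range_zero, h0, h1, Nat.choose]
  norm_num [h0, h1]

theorem cc1 {m : ℕ → ℚ} (h0 : m 0 = 12) (h1 : m 1 = 0) : cv m m 1 = 0 := by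
  unfold cv
  simp only [Finset.sum_range_succ, Finset.sum_range_zero, h0, h1, Nat.choose]
  norm_num [h0, h1]

theorem hh2 {m : ℕ → ℚ} (h0 : m 0 = 12) (h1 : m 1 = 0) : hh m 2 = 12 * m 2 := by
  unfold hh cv
  simp only [Finset.sum_range_succ, Finset.sum_range_zero, h0, h1, Nat.choose]
  norm_num [h0, h1]
  try ring

theorem cc2 {m : ℕ → ℚ} (h0 : m 0 = 12) (h1 : m 1 = 0) : cv m m 2 = 24 * m 2 := by
  unfold cv
  simp only [Finset.sum_range_succ, Finset.sum_range_zero, h0, h1, Nat.choose]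
  norm_num [h0, h1]
  try ring

theorem hh3 {m : ℕ → ℚ} (h0 : m 0 = 12) (h1 : m 1 = 0) : hh m 3 = 0 := by
  unfold hh cv
  simp only [Finset.sum_range_succ, Finset.sum_range_zero, h0, h1, Nat.choose]
  norm_num [h0, h1]
  try ring

theorem cc3 {m : ℕ → ℚ} (h0 : m 0 = 12) (h1 : m 1 = 0) : cv m m 3 = 24 * m 3 := by
  unfold cv
  simp only [Finset.sum_range_succ, Finset.sum_range_zero, h0, h1, Nat.choose]
  norm_num [h0, h1]
  try ring

theorem hh4 {m : ℕ → ℚ} (h0 : m 0 = 12) (h1 : m 1 = 0) : hh m 4 = 6 * m 2 ^ 2 + (-24) * m 4 := by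
  unfold hh cv
  simp only [Finset.sum_range_succ, Finset.sum_range_zero, h0, h1, Nat.choose]
  norm_num [h0, h1]
  try ring

theorem cc4 {m : ℕ → ℚ} (h0 : m 0 = 12) (h1 : m 1 = 0) : cv m m 4 = 6 * m 2 ^ 2 + 24 * m 4 := by
  unfold cv
  simp only [Finset.sum_range_succ, Finset.sum_range_zero, h0, h1, Nat.choose]
  norm_num [h0, h1]
  try ring

theorem hh5 {m : ℕ → ℚ} (h0 : m 0 = 12) (h1 : m 1 = 0) : hh m 5 = 20 * m 2 * m 3 + (-72) * m 5 := by
  unfold hh cv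
  simp only [Finset.sum_range_succ, Finset.sum_range_zero, h0, h1, Nat.choose]
  norm_num [h0, h1]
  try ring

theorem cc5 {m : ℕ → ℚ} (h0 : m 0 = 12) (h1 : m 1 = 0) : cv m m 5 = 20 * m 2 * m 3 + 24 * m 5 := by
  unfold cv
  simp only [Finset.sum_range_succ, Finset.sum_range_zero, h0, h1, Nat.choose]
  norm_num [h0, h1]
  try ring

theorem hh6 {m : ℕ → ℚ} (h0 : m 0 = 12) (h1 : m 1 = 0) : hh m 6 = 30 * m 2 * m 4 + 20 * m 3 ^ 2 + (-168) * m 6 := by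
  unfold hh cv
  simp only [Finset.sum_range_succ, Finset.sum_range_zero, h0, h1, Nat.choose]
  norm_num [h0, h1]
  try ring

theorem cc6 {m : ℕ → ℚ} (h0 : m 0 = 12) (h1 : m 1 = 0) : cv m m 6 = 30 * m 2 * m 4 + 20 * m 3 ^ 2 + 24 * m 6 := by
  unfold cv
  simp only [Finset.sum_range_succ, Finset.sum_range_zero, h0, h1, Nat.choose]
  norm_num [h0, h1]
  try ring

theorem hh7 {m : ℕ → ℚ} (h0 : m 0 = 12) (h1 : m 1 = 0) : hh m 7 = 42 * m 2 * m 5 + 70 * m 3 * m 4 + (-360) * m 7 := by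
  unfold hh cv
  simp only [Finset.sum_range_succ, Finset.sum_range_zero, h0, h1, Nat.choose]
  norm_num [h0, h1]
  try ring

theorem cc7 {m : ℕ → ℚ} (h0 : m 0 = 12) (h1 : m 1 = 0) : cv m m 7 = 42 * m 2 * m 5 + 70 * m 3 * m 4 + 24 * m 7 := by
  unfold cv
  simp only [Finset.sum_range_succ, Finset.sum_range_zero, h0, h1, Nat.choose]
  norm_num [h0, h1]
  try ring

theorem hh8 {m : ℕ → ℚ} (h0 : m 0 = 12) (h1 : m 1 = 0) : hh m 8 = 56 * m 2 * m 6 + 112 * m 3 * m 5 + 70 * m 4 ^ 2 + (-744) * m 8 := by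
  unfold hh cv
  simp only [Finset.sum_range_succ, Finset.sum_range_zero, h0, h1, Nat.choose]
  norm_num [h0, h1]
  try ring

theorem cc8 {m : ℕ → ℚ} (h0 : m 0 = 12) (h1 : m 1 = 0) : cv m m 8 = 56 * m 2 * m 6 + 112 * m 3 * m 5 + 70 * m 4 ^ 2 + 24 * m 8 := by
  unfold cv
  simp only [Finset.sum_range_succ, Finset.sum_range_zero, h0, h1, Nat.choose]
  norm_num [h0, h1]
  try ring

theorem hh9 {m : ℕ → ℚ} (h0 : m 0 = 12) (h1 : m 1 = 0) : hh m 9 = 72 * m 2 * m 7 + 168 * m 3 * m 6 + 252 * m 4 * m 5 + (-1512) * m 9 := by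
  unfold hh cv
  simp only [Finset.sum_range_succ, Finset.sum_range_zero, h0, h1, Nat.choose]
  norm_num [h0, h1]
  try ring

theorem cc9 {m : ℕ → ℚ} (h0 : m 0 = 12) (h1 : m 1 = 0) : cv m m 9 = 72 * m 2 * m 7 + 168 * m 3 * m 6 + 252 * m 4 * m 5 + 24 * m 9 := by
  unfold cv
  simp only [Finset.sum_range_succ, Finset.sum_range_zero, h0, h1, Nat.choose]
  norm_num [h0, h1]
  try ring

theorem hh10 {m : ℕ → ℚ} (h0 : m 0 = 12) (h1 : m 1 = 0) : hh m 10 = 90 * m 2 * m 8 + 240 * m 3 * m 7 + 420 * m 4 * m 6 + 252 * m 5 ^ 2 + (-3048) * m 10 := by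
  unfold hh cv
  simp only [Finset.sum_range_succ, Finset.sum_range_zero, h0, h1, Nat.choose]
  norm_num [h0, h1]
  try ring

theorem cc10 {m : ℕ → ℚ} (h0 : m 0 = 12) (h1 : m 1 = 0) : cv m m 10 = 90 * m 2 * m 8 + 240 * m 3 * m 7 + 420 * m 4 * m 6 + 252 * m 5 ^ 2 + 24 * m 10 := by
  unfold cv
  simp only [Finset.sum_range_succ, Finset.sum_range_zero, h0, h1, Nat.choose]
  norm_num [h0, h1]
  try ring

theorem hh11 {m : ℕ → ℚ} (h0 : m 0 = 12) (h1 : m 1 = 0) : hh m 11 = 110 * m 2 * m 9 + 330 * m 3 * m 8 + 660 * m 4 * m 7 + 924 * m 5 * m 6 + (-6120) * m 11 := by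
  unfold hh cv
  simp only [Finset.sum_range_succ, Finset.sum_range_zero, h0, h1, Nat.choose]
  norm_num [h0, h1]
  try ring

theorem cc11 {m : ℕ → ℚ} (h0 : m 0 = 12) (h1 : m 1 = 0) : cv m m 11 = 110 * m 2 * m 9 + 330 * m 3 * m 8 + 660 * m 4 * m 7 + 924 * m 5 * m 6 + 24 * m 11 := by
  unfold cv
  simp only [Finset.sum_range_succ, Finset.sum_range_zero, h0, h1, Nat.choose]
  norm_num [h0, h1]
  try ring

theorem hh12 {m : ℕ → ℚ} (h0 : m 0 = 12) (h1 : m 1 = 0) : hh m 12 = 132 * m 10 * m 2 + 440 * m 3 * m 9 + 990 * m 4 * m 8 + 1584 * m 5 * m 7 + 924 * m 6 ^ 2 + (-12264) * m 12 := by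
  unfold hh cv
  simp only [Finset.sum_range_succ, Finset.sum_range_zero, h0, h1, Nat.choose]
  norm_num [h0, h1]
  try ring

theorem cc12 {m : ℕ → ℚ} (h0 : m 0 = 12) (h1 : m 1 = 0) : cv m m 12 = 132 * m 10 * m 2 + 440 * m 3 * m 9 + 990 * m 4 * m 8 + 1584 * m 5 * m 7 + 924 * m 6 ^ 2 + 24 * m 12 := by
  unfold cv
  simp only [Finset.sum_range_succ, Finset.sum_range_zero, h0, h1, Nat.choose]
  norm_num [h0, h1]
  try ring

theorem hh13 {m : ℕ → ℚ} (h0 : m 0 = 12) (h1 : m 1 = 0) : hh m 13 = 572 * m 10 * m 3 + 156 * m 11 * m 2 + 1430 * m 4 * m 9 + 2574 * m 5 * m 8 + 3432 * m 6 * m 7 + (-24552) * m 13 := by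
  unfold hh cv
  simp only [Finset.sum_range_succ, Finset.sum_range_zero, h0, h1, Nat.choose]
  norm_num [h0, h1]
  try ring

theorem cc13 {m : ℕ → ℚ} (h0 : m 0 = 12) (h1 : m 1 = 0) : cv m m 13 = 572 * m 10 * m 3 + 156 * m 11 * m 2 + 1430 * m 4 * m 9 + 2574 * m 5 * m 8 + 3432 * m 6 * m 7 + 24 * m 13 := by
  unfold cv
  simp only [Finset.sum_range_succ, Finset.sum_range_zero, h0, h1, Nat.choose]
  norm_num [h0, h1]
  try ring

theorem hh14 {m : ℕ → ℚ} (h0 : m 0 = 12) (h1 : m 1 = 0) : hh m 14 = 2002 * m 10 * m 4 + 728 * m 11 * m 3 + 182 * m 12 * m 2 + 4004 * m 5 * m 9 + 6006 * m 6 * m 8 + 3432 * m 7 ^ 2 + (-49128) * m 14 := by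
  unfold hh cv
  simp only [Finset.sum_range_succ, Finset.sum_range_zero, h0, h1, Nat.choose]
  norm_num [h0, h1]
  try ring

theorem cc14 {m : ℕ → ℚ} (h0 : m 0 = 12) (h1 : m 1 = 0) : cv m m 14 = 2002 * m 10 * m 4 + 728 * m 11 * m 3 + 182 * m 12 * m 2 + 4004 * m 5 * m 9 + 6006 * m 6 * m 8 + 3432 * m 7 ^ 2 + 24 * m 14 := by
  unfold cv
  simp only [Finset.sum_range_succ, Finset.sum_range_zero, h0, h1, Nat.choose]
  norm_num [h0, h1]
  try ring

end Pool.Agent.H14.MT
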