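import Pool.Agent.H14.MT.Diff

/-!
# The singular pairs for 4-sums: only `n = 12`, `k = 6`
-/

set_option autoImplicit false

namespace Pool.Agent.H14.MT

/-- half of the factor, as an integer -/
def gg (n : ℤ) (k : ℕ) : ℤ :=
  2 * n * (n - 1) * (n - 2) - 3 * 2 ^ k * n * (n - 1) + 4 * 3 ^ k * n - 3 * 4 ^ k

theorem fac_eq (n : ℤ) (k : ℕ) : fac (n : ℚ) k = 2 * (gg n k : ℚ) := by
  unfold fac gg
  push_cast
  ring

theorem three_pow_mod (k : ℕ) : (3 : ℤ) ^ k % 8 = 1 ∨ (3 : ℤ) ^ k % 8 = 3 := by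
  induction k with
  | zero => left; norm_num
  | succ k ih =>
    rw [pow_succ]
    omega

theorem small_k {n : ℤ} (hn : 8 < n) {k : ℕ} (hk : 0 < k) (hk4 : k ≤ 4) : gg n k ≠ 0 := by
  intro h
  unfold gg at h
  interval_cases k
  · have h1 : 2 * ((n - 1) * (n - 2) * (n - 3)) = 0 := by linear_combination h
    have : 0 < (n - 1) * (n - 2) * (n - 3) := by
      have a1 : 0 < n - 1 := by omega
      have a2 : 0 < n - 2 := by omega
      have a3 : 0 < n - 3 := by omega
      positivity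
    omega
  · have h1 : 2 * ((n - 2) * (n - 3) * (n - 4)) = 0 := by linear_combination h
    have : 0 < (n - 2) * (n - 3) * (n - 4) := by
      have a1 : 0 < n - 4 := by omega
      have a2 : 0 < n - 2 := by omega
      have a3 : 0 < n - 3 := by omega
      positivity
    omega
  · have h1 : 2 * ((n - 3) * (n - 4) * (n - 8)) = 0 := by linear_combination h
    have : 0 < (n - 3) * (n - 4) * (n - 8) := by
      have a1 : 0 < n - 4 := by omega
      have a2 : 0 < n - 8 := by omega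
      have a3 : 0 < n - 3 := by omega
      positivity
    omega
  · have h1 : (n - 4) * (n ^ 2 - 23 * n + 96) = 0 := by
      have : 2 * ((n - 4) * (n ^ 2 - 23 * n + 96)) = 0 := by linear_combination h
      omega
    rcases mul_eq_zero.1 h1 with h2 | h2
    · omega
    · have h3 : n < 24 := by
        by_contra hcon
        push Not at hcon
        nlinarith
      interval_cases n <;> omega

theorem big_n {n : ℤ} {k : ℕ} (hk : 5 ≤ k) (hn : (4 : ℤ) ^ k ≤ 16 * n) : gg n k ≠ 0 := by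
  have hN : (32 : ℤ) ≤ 2 ^ k := by
    calc (32 : ℤ) = 2 ^ 5 := by norm_num
      _ ≤ 2 ^ k := pow_le_pow_right₀ (by norm_num) hk
  have h3 : (243 : ℤ) ≤ 3 ^ k := by
    calc (243 : ℤ) = 3 ^ 5 := by norm_num
      _ ≤ 3 ^ k := pow_le_pow_right₀ (by norm_num) hk
  have h4 : (4 : ℤ) ^ k = 2 ^ k * 2 ^ k := by
    rw [← mul_pow]; norm_num
  unfold gg
  rw [h4]
  rw [h4] at hn
  generalize (2 : ℤ) ^ k = N at *
  generalize (3 : ℤ) ^ k = T at *
  have hn2 : 2 * N ≤ n := by nlinarith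
  have hpos : 0 < n := by linarith
  have a1 : 0 ≤ n * (n - 1) * (2 * n - 4 - 3 * N) := by
    apply mul_nonneg
    · apply mul_nonneg <;> linarith
    · linarith
  have a2 : 0 < 4 * T * n - 3 * (N * N) := by nlinarith
  have : 0 < 2 * n * (n - 1) * (n - 2) - 3 * N * n * (n - 1) + 4 * T * n - 3 * (N * N) := by
    nlinarith
  exact this.ne'

theorem mod_eight {m : ℤ} (hm : m = 1 ∨ m = 3) (j l r k : ℕ) (hk : k = l + 5)
    (hr : 2 * k = (j + 4) + 2 + (r + 3)) : gg (2 ^ (j + 4) * m) k ≠ 0 := by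
  intro h
  unfold gg at h
  have h4 : (4 : ℤ) ^ k = 2 ^ (j + 4) * 4 * (8 * 2 ^ r) := by
    have : (4 : ℤ) ^ k = 2 ^ (2 * k) := by
      rw [pow_mul]; norm_num
    rw [this, hr]
    ring
  have h2 : (2 : ℤ) ^ k = 4 * (8 * 2 ^ l) := by
    rw [hk]; ring
  rw [h4, h2] at h
  have hpos : (0 : ℤ) < 2 ^ (j + 4) * 4 := by positivity
  have h5 : (2 ^ (j + 4) * 4 : ℤ) * (m * (16 * 2 ^ j * m - 1) * (8 * 2 ^ j * m - 1)
      - 3 * (8 * 2 ^ l) * m * (16 * 2 ^ j * m - 1) + m * 3 ^ k - 3 * (8 * 2 ^ r)) = 0 := by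
    have e : (2 : ℤ) ^ (j + 4) = 16 * 2 ^ j := by ring
    rw [e] at h ⊢
    linear_combination h
  have h6 := (mul_eq_zero.1 h5).resolve_left hpos.ne'
  have h3 := three_pow_mod k
  generalize (3 : ℤ) ^ k = T at h6 h3
  generalize (2 : ℤ) ^ j = u at h6
  generalize (2 : ℤ) ^ l = v at h6
  generalize (2 : ℤ) ^ r = w at h6
  rcases hm with hm | hm
  · subst hm
    have h7 : T = 8 * (3 * w + 3 * v * (16 * u - 1) - 16 * u ^ 2 + 3 * u) - 1 := by
      linear_combination h6
    generalize (3 * w + 3 * v * (16 * u - 1) - 16 * u ^ 2 + 3 * u) = q at h7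
    omega
  · subst hm
    have h7 : T = 8 * (w + 3 * v * (48 * u - 1) - 144 * u ^ 2 + 9 * u) - 1 := by
      have : 3 * T = 3 * (8 * (w + 3 * v * (48 * u - 1) - 144 * u ^ 2 + 9 * u) - 1) := by
        linear_combination h6
      omega
    generalize (w + 3 * v * (48 * u - 1) - 144 * u ^ 2 + 9 * u) = q at h7
    omega

theorem n24 (k : ℕ) (hk : 0 < k) : gg 24 k ≠ 0 := by
  rcases Nat.lt_or_ge k 13 with h | h
  · unfold gg
    interval_cases k <;> norm_num
  · have h1 : ∀ l : ℕ, 32 * (3 : ℤ) ^ (13 + l) < 4 ^ (13 + l) := by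
      intro l
      induction l with
      | zero => norm_num
      | succ l ih =>
        rw [← add_assoc, pow_succ, pow_succ]
        have : (0 : ℤ) < 3 ^ (13 + l) := by positivity
        linarith
    obtain ⟨l, rfl⟩ := Nat.exists_eq_add_of_le h
    have h2 := h1 l
    have h3 : (8192 : ℤ) ≤ 2 ^ (13 + l) := by
      calc (8192 : ℤ) = 2 ^ 13 := by norm_num
        _ ≤ 2 ^ (13 + l) := pow_le_pow_right₀ (by norm_num) (by omega)
    unfold gg
    have : 2 * (24 : ℤ) * (24 - 1) * (24 - 2) - 3 * 2 ^ (13 + l) * 24 * (24 - 1) +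
      4 * 3 ^ (13 + l) * 24 - 3 * 4 ^ (13 + l) < 0 := by linarith
    exact this.ne

theorem n12 (k : ℕ) (hk : 0 < k) (hk6 : k ≠ 6) : gg 12 k ≠ 0 := by
  rcases Nat.lt_or_ge k 10 with h | h
  · unfold gg
    interval_cases k <;> first | exact absurd rfl hk6 | norm_num
  · have h1 : ∀ l : ℕ, 16 * (3 : ℤ) ^ (10 + l) < 4 ^ (10 + l) := by
      intro l
      induction l with
      | zero => norm_num
      | succ l ih =>
        rw [← add_assoc, pow_succ, pow_succ]
        have : (0 : ℤ) < 3 ^ (10 + l) := by positivity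
        linarith
    obtain ⟨l, rfl⟩ := Nat.exists_eq_add_of_le h
    have h2 := h1 l
    have h3 : (1024 : ℤ) ≤ 2 ^ (10 + l) := by
      calc (1024 : ℤ) = 2 ^ 10 := by norm_num
        _ ≤ 2 ^ (10 + l) := pow_le_pow_right₀ (by norm_num) (by omega)
    unfold gg
    have : 2 * (12 : ℤ) * (12 - 1) * (12 - 2) - 3 * 2 ^ (10 + l) * 12 * (12 - 1) +
      4 * 3 ^ (10 + l) * 12 - 3 * 4 ^ (10 + l) < 0 := by linarith
    exact this.ne

theorem gg_ne {n : ℕ} (hn : 8 < n) (hn12 : n ≠ 12) {k : ℕ} (hk : 0 < k) : gg (n : ℤ) k ≠ 0 := by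
  rcases Nat.lt_or_ge k 5 with h5 | h5
  · exact small_k (by exact_mod_cast hn) hk (by omega)
  intro h
  -- n divides 3 * 4 ^ k
  have hdvd : (n : ℤ) ∣ 3 * 4 ^ k := by
    refine ⟨2 * ((n : ℤ) - 1) * ((n : ℤ) - 2) - 3 * 2 ^ k * ((n : ℤ) - 1) + 4 * 3 ^ k, ?_⟩
    unfold gg at h
    linear_combination -h
  have hdvd' : n ∣ 3 * 4 ^ k := by exact_mod_cast hdvd
  obtain ⟨i, m, hm, hnm⟩ := Nat.exists_eq_two_pow_mul_odd (n := n) (by omega)
  have hm3 : m ∣ 3 := by
    have h1 : m ∣ 3 * 4 ^ k := (Dvd.intro_left _ hnm.symm).trans hdvd'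
    have h2 : Nat.Coprime m (4 ^ k) := by
      apply Nat.Coprime.pow_right
      rw [show (4 : ℕ) = 2 ^ 2 by norm_num]
      apply Nat.Coprime.pow_right
      exact Nat.coprime_two_right.2 hm
    exact h2.dvd_of_dvd_mul_right h1
  have hm13 : m = 1 ∨ m = 3 := (Nat.dvd_prime Nat.prime_three).1 hm3
  have hmz : ((m : ℕ) : ℤ) = 1 ∨ ((m : ℕ) : ℤ) = 3 := by
    rcases hm13 with h | h
    · left; exact_mod_cast h
    · right; exact_mod_cast h
  rcases Nat.lt_or_ge i 4 with hi | hi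
  · have : n = 24 := by
      rcases hm13 with h | h <;> subst h <;> interval_cases i <;> omega
    subst this
    exact n24 k hk (by exact_mod_cast h)
  · rcases Nat.lt_or_ge (2 * k) (i + 5) with hki | hki
    · -- n is large
      apply big_n (n := (n : ℤ)) h5 ?_ h
      have h1 : (4 : ℤ) ^ k ≤ 2 ^ (i + 4) := by
        have : (4 : ℤ) ^ k = 2 ^ (2 * k) := by
          rw [pow_mul]; norm_num
        rw [this]
        exact pow_le_pow_right₀ (by norm_num) (by omega)
      have h2 : (1 : ℤ) ≤ m := by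
        rcases hmz with h | h <;> omega
      rw [hnm]
      push_cast
      have h3 : (0 : ℤ) < 2 ^ i := by positivity
      have h4 : (2 : ℤ) ^ (i + 4) = 16 * 2 ^ i := by ring
      rw [h4] at h1
      nlinarith
    · obtain ⟨j, rfl⟩ := Nat.exists_eq_add_of_le hi
      obtain ⟨l, rfl⟩ := Nat.exists_eq_add_of_le h5
      obtain ⟨r, hr⟩ := Nat.exists_eq_add_of_le hki
      refine mod_eight hmz j l r (5 + l) (by omega) (by omega) ?_
      rw [hnm] at h
      push_cast at h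
      rw [add_comm 4 j] at h
      exact h

theorem fac_ne {n : ℕ} (hn : 8 < n) (hn12 : n ≠ 12) {k : ℕ} (hk : 0 < k) :
    fac (n : ℚ) k ≠ 0 := by
  have h := fac_eq (n : ℤ) k
  rw [Int.cast_natCast] at h
  rw [h]
  have := gg_ne hn hn12 hk
  intro h0
  apply this
  have h1 : (gg (n : ℤ) k : ℚ) = 0 := by linarith
  exact_mod_cast h1

theorem fac12_ne {k : ℕ} (hk : 0 < k) (hk6 : k ≠ 6) : fac (12 : ℚ) k ≠ 0 := by
  have h := fac_eq (12 : ℤ) k
  have := n12 k hk hk6
  intro h0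
  apply this
  have h1 : (gg (12 : ℤ) k : ℚ) = 0 := by
    push_cast at h
    linarith
  exact_mod_cast h1

end Pool.Agent.H14.MT
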