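import Mathlib

/-!
# Power series of a multiset of rationals and its 4-sums
-/

set_option autoImplicit false

namespace Pool.Agent.H14.MT

open PowerSeries

/-- the multiset of `s`-sums -/
def sums (s : ℕ) (A : Multiset ℚ) : Multiset ℚ := (Multiset.powersetCard s A).map Multiset.sum

/-- power sums -/
def ps {R : Type*} [CommRing R] (A : Multiset R) (k : ℕ) : R := (A.map (fun a => a ^ k)).sum

theorem ps_cons {R : Type*} [CommRing R] (a : R) (A : Multiset R) (k : ℕ) :
    ps (a ::ₘ A) k = a ^ k + ps A k := by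
  unfold ps
  rw [Multiset.map_cons, Multiset.sum_cons]

theorem esymm_cons {R : Type*} [CommRing R] (a : R) (A : Multiset R) (k : ℕ) :
    (a ::ₘ A).esymm (k + 1) = A.esymm (k + 1) + a * A.esymm k := by
  unfold Multiset.esymm
  rw [Multiset.powersetCard_cons, Multiset.map_add, Multiset.sum_add, Multiset.map_map,
    ← Multiset.sum_map_mul_left]
  congr 2
  apply Multiset.map_congr rfl
  intro x _
  simp

theorem esymm_zero' {R : Type*} [CommRing R] (A : Multiset R) : A.esymm 0 = 1 := by
  simp [Multiset.esymm]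

theorem esymm_formula {R : Type*} [CommRing R] (A : Multiset R) :
    A.esymm 1 = ps A 1 ∧ 2 * A.esymm 2 = ps A 1 ^ 2 - ps A 2 ∧
    6 * A.esymm 3 = ps A 1 ^ 3 - 3 * ps A 1 * ps A 2 + 2 * ps A 3 ∧
    24 * A.esymm 4 = ps A 1 ^ 4 - 6 * ps A 1 ^ 2 * ps A 2 + 3 * ps A 2 ^ 2 + 8 * ps A 1 * ps A 3
      - 6 * ps A 4 := by
  induction A using Multiset.induction_on with
  | empty =>
    have h1 : ∀ k : ℕ, (0 : Multiset R).esymm (k + 1) = 0 := by
      intro k
      unfold Multiset.esymm
      rw [Multiset.powersetCard_zero_right, Multiset.map_zero, Multiset.sum_zero]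
    have h2 : ∀ k : ℕ, ps (0 : Multiset R) k = 0 := by
      intro k
      unfold ps
      rw [Multiset.map_zero, Multiset.sum_zero]
    rw [h1, h1, h1, h1, h2, h2, h2, h2]
    refine ⟨rfl, ?_, ?_, ?_⟩ <;> ring
  | cons a A ih =>
    obtain ⟨h1, h2, h3, h4⟩ := ih
    rw [esymm_cons, esymm_cons, esymm_cons, esymm_cons, esymm_zero', ps_cons, ps_cons, ps_cons,
      ps_cons]
    refine ⟨?_, ?_, ?_, ?_⟩
    · linear_combination h1
    · linear_combination h2 + 2 * a * h1
    · linear_combination h3 + 3 * a * h2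
    · linear_combination h4 + 4 * a * h3

/-- the exponential series `exp (a X)` -/
noncomputable def ex (a : ℚ) : ℚ⟦X⟧ := rescale a (PowerSeries.exp ℚ)

theorem ex_zero : ex 0 = 1 := by
  unfold ex
  simp

theorem ex_add (a b : ℚ) : ex (a + b) = ex a * ex b := (exp_mul_exp_eq_exp_add a b).symm

theorem ex_prod (t : Multiset ℚ) : (t.map ex).prod = ex t.sum := by
  induction t using Multiset.induction_on with
  | empty => simp [ex_zero]
  | cons a t ih => rw [Multiset.map_cons, Multiset.prod_cons, Multiset.sum_cons, ex_add, ih]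

theorem ex_pow (a : ℚ) (k : ℕ) : ex a ^ k = rescale (k : ℚ) (ex a) := by
  induction k with
  | zero =>
    ext n
    rw [pow_zero, coeff_rescale, Nat.cast_zero, coeff_one]
    rcases Nat.eq_zero_or_pos n with h | h
    · subst h
      simp [ex, coeff_rescale]
    · simp [h.ne']
  | succ k ih =>
    rw [pow_succ, ih]
    have h1 : rescale (k : ℚ) (ex a) = ex (a * (k : ℚ)) := by
      unfold ex
      rw [rescale_rescale]
    have h2 : rescale ((k + 1 : ℕ) : ℚ) (ex a) = ex (a * ((k + 1 : ℕ) : ℚ)) := by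
      unfold ex
      rw [rescale_rescale]
    rw [h1, h2, ← ex_add]
    congr 1
    push_cast
    linarith

theorem coeff_ex (a : ℚ) (k : ℕ) : coeff k (ex a) = a ^ k / (k.factorial : ℚ) := by
  unfold ex
  rw [coeff_rescale, coeff_exp]
  simp [div_eq_mul_inv]

/-- the exponential generating series of the power sums -/
noncomputable def EE (A : Multiset ℚ) : ℚ⟦X⟧ := (A.map ex).sum

theorem coeff_EE (A : Multiset ℚ) (k : ℕ) :
    coeff k (EE A) = ps A k / (k.factorial : ℚ) := by
  unfold EE ps
  induction A using Multiset.induction_on with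
  | empty => simp
  | cons a A ih =>
    rw [Multiset.map_cons, Multiset.sum_cons, map_add, ih, coeff_ex, Multiset.map_cons,
      Multiset.sum_cons, add_div]

theorem ps_ex (A : Multiset ℚ) (i : ℕ) : ps (A.map ex) i = rescale (i : ℚ) (EE A) := by
  unfold ps EE
  rw [Multiset.map_map, map_multiset_sum, Multiset.map_map]
  congr 1
  apply Multiset.map_congr rfl
  intro x _
  exact ex_pow x i

theorem esymm_ex (A : Multiset ℚ) (s : ℕ) : (A.map ex).esymm s = ((sums s A).map ex).sum := by
  unfold Multiset.esymm sums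
  rw [Multiset.powersetCard_map, Multiset.map_map, Multiset.map_map]
  congr 1
  apply Multiset.map_congr rfl
  intro x _
  exact ex_prod x

/-- the functional expression of the 4-sums -/
noncomputable def FF (f : ℚ⟦X⟧) : ℚ⟦X⟧ :=
  f ^ 4 - 6 * f ^ 2 * rescale (2 : ℚ) f + 3 * (rescale (2 : ℚ) f) ^ 2
    + 8 * f * rescale (3 : ℚ) f - 6 * rescale (4 : ℚ) f

theorem FF_EE (A : Multiset ℚ) : FF (EE A) = 24 * ((sums 4 A).map ex).sum := by
  have h := (esymm_formula (A.map ex)).2.2.2
  rw [esymm_ex, ps_ex, ps_ex, ps_ex, ps_ex] at h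
  rw [h]
  unfold FF
  simp [PowerSeries.rescale_one]

theorem FF_eq {A B : Multiset ℚ} (h : sums 4 A = sums 4 B) : FF (EE A) = FF (EE B) := by
  rw [FF_EE, FF_EE, h]

end Pool.Agent.H14.MT
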